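import Pool.Agent.Q206.HT.NE
import Pool.Agent.Q299.FAL.CR

/-!
# The net of a diagram is good (strengthened form of the proof of `task_GD` by helper224)
-/

set_option autoImplicit false

namespace Pool.Agent.Q206.HT

open Finset Filter Topology MeasureTheory
open Pool.Agent.Q99.FAL (bq hh S_T1 Pc Ty Val Pri Pos AS Sol Out c6 fV n1 n2 cor dn Net up wd stp cls
  zz IsLat nV toR eij S_LB S_SP S_SUR S_NC S_SO S_OZ)
open Pool.Agent.Q99.HT
open Pool.Agent.Q224.FAL (Sol_cor sol_add sol_smul sol_cast lat Out_13 Out_02 eij_cor)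
open Pool.Agent.Q237.FAL (task_SO task_OZ task_SUR task_NC)

theorem outer_iff {D : List Pc} (hV : Val D 1) {p : Fin D.length → Fin 6 → ℝ} (hp : Pos D p)
    (b : Fin D.length) (i : Fin 6) : p b i = 0 ↔ Out D 1 b (c6 i) := by
  constructor
  · intro h
    by_contra hcon
    have := hp.pos b i hcon
    linarith
  · exact task_OZ.1 D 1 hV p [0, 0] 1 rfl (by simp) hp.nonneg hp.sol b i

/-- the net of a diagram -/
def netD (D : List Pc) (a0 : Fin D.length → Fin 6 → ℤ) (h : So D a0 1) : Net D.length :=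
  ⟨lat task_SO D a0 h.1, a0⟩

theorem mem_netD {D : List Pc} {a0 : Fin D.length → Fin 6 → ℤ} (h : So D a0 1)
    (δ : Fin D.length → Fin 6 → ℤ) : δ ∈ (netD D a0 h).L ↔ So D δ 0 := Iff.rfl

theorem ang_netD {D : List Pc} (hV : Val D 1) {a0 : Fin D.length → Fin 6 → ℤ} (h : So D a0 1) :
    (netD D a0 h).Ang = AS D := by
  obtain ⟨h0, o0⟩ := h
  have hlat : IsLat D (netD D a0 ⟨h0, o0⟩).L := fun δ => Iff.rfl
  have hspan : ∀ x ∈ (netD D a0 ⟨h0, o0⟩).LR, Sol D x [0, 0] 0 ∧
      ∀ k i, Out D 1 k (c6 i) → x k i = 0 := by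
    intro x hx
    refine Submodule.span_induction (p := fun x _ => Sol D x [0, 0] 0 ∧
      ∀ k i, Out D 1 k (c6 i) → x k i = 0) ?_ ?_ ?_ ?_ hx
    · rintro _ ⟨δ, hδ, rfl⟩
      have hδ' : Sol D δ [0, 0] 0 ∧ ∀ k i, Out D 1 k (c6 i) → δ k i = 0 := hδ
      refine ⟨by simpa using sol_cast task_SO hδ'.1, fun k i h => ?_⟩
      show ((δ k i : ℤ) : ℝ) = 0
      rw [hδ'.2 k i h, Int.cast_zero]
    · refine ⟨?_, fun _ _ _ => rfl⟩
      have := sol_smul task_SO 0 (sol_cast task_SO h0)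
      simpa using this
    · rintro x y _ _ ⟨hx, hx'⟩ ⟨hy, hy'⟩
      refine ⟨by simpa using sol_add task_SO hx hy, fun k i h => ?_⟩
      rw [Pi.add_apply, Pi.add_apply, hx' k i h, hy' k i h, add_zero]
    · rintro r x _ ⟨hx, hx'⟩
      refine ⟨by simpa using sol_smul task_SO r hx, fun k i h => ?_⟩
      rw [Pi.smul_apply, Pi.smul_apply, hx' k i h, smul_zero]
  have h0R : Sol D (toR a0) [0, 0] (1 : ℝ) := by simpa using sol_cast task_SO h0
  have hnn : ∀ {a : Fin D.length → Fin 6 → ℝ} {u : ℝ}, Sol D a [0, 0] u → (∀ k i, 0 ≤ a k i) →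
      ∀ k i, Out D 1 k (c6 i) → a k i = 0 := by
    intro a u ha hn
    exact task_OZ.1 D 1 hV a [0, 0] u rfl (by simp) hn ha
  ext a
  constructor
  · rintro ⟨h1, h2, h3⟩
    refine ⟨?_, fun k => (h3 k).1, h2⟩
    have h4 := sol_add task_SO (hspan _ h1).1 h0R
    have e : a - toR (netD D a0 ⟨h0, o0⟩).a0 + toR a0 = a := by
      show a - toR a0 + toR a0 = a
      exact sub_add_cancel _ _
    rw [e, zero_add] at h4
    exact h4
  · rintro ⟨h1, h2, h3⟩
    refine ⟨?_, h3, fun b => ⟨h2 b, ?_⟩⟩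
    · show a - toR a0 ∈ Submodule.span ℝ (toR '' ((netD D a0 ⟨h0, o0⟩).L : Set _))
      refine Pool.Agent.Q299.FAL.task_SP task_SO D _ hlat _ ?_ ?_
      · have h4 := sol_add task_SO h1 (sol_smul task_SO (-1) h0R)
        have e : a + (-1 : ℝ) • toR a0 = a - toR a0 := by
          rw [neg_one_smul, sub_eq_add_neg]
        rw [e] at h4
        simpa using h4
      · intro k i h
        rw [Pi.sub_apply, Pi.sub_apply, hnn h1 h3 k i h]
        show 0 - ((a0 k i : ℤ) : ℝ) = 0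
        rw [o0 k i h]
        simp
    · have h4 := ((task_SO.1 ℝ D a [0, 0] 1).mp h1).1 b
      have h5 := h2 b
      linarith

theorem zero_netD {D : List Pc} {a0 : Fin D.length → Fin 6 → ℤ} (h : So D a0 1) :
    So D (0 : Fin D.length → Fin 6 → ℤ) 0 := by
  refine ⟨?_, fun _ _ _ => rfl⟩
  have := sol_smul task_SO 0 h.1
  simpa using this

theorem good_netD {D : List Pc} (hV : Val D 1) {a0 : Fin D.length → Fin 6 → ℤ} (h : So D a0 1)
    {p : Fin D.length → Fin 6 → ℝ} (hp : Pos D p) : (netD D a0 h).Good p := by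
  have hpz := outer_iff hV hp
  have hpAS : p ∈ AS D := ⟨hp.sol, hp.half, hp.nonneg⟩
  have hzero := (zero_netD h).1
  refine ⟨by rw [ang_netD hV h]; exact hpAS, ?_, ?_, ?_, ?_, ?_, ?_, ?_, ?_, ?_, ?_⟩
  · intro δ hδ b i h'
    exact ((mem_netD h δ).1 hδ).2 b i ((hpz b i).mp h')
  · intro b i h'
    exact h.2 b i ((hpz b i).mp h')
  · intro δ hδ b
    exact ((task_SO.1 ℤ D δ [0, 0] 0).mp ((mem_netD h δ).1 hδ).1).1 b
  · exact ((task_SO.1 ℤ D a0 [0, 0] 1).mp h.1).1
  · intro b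
    rw [hpz, hpz]
    rfl
  · intro b
    rw [hpz, hpz]
    rfl
  · rintro b ⟨h1, h2⟩
    exact Out_13 hV b ⟨(hpz b 1).mp h1, (hpz b 2).mp h2⟩
  · rintro b ⟨h1, h2, h3⟩
    refine Out_02 hV b ⟨(hpz b 0).mp h1, (hpz b 3).mp h2, ?_⟩
    rcases h3 with h3 | h3
    · exact Or.inl ((hpz b 1).mp h3)
    · exact Or.inr ((hpz b 2).mp h3)
  · intro b hb
    rw [mem_netD]
    refine ⟨Sol_cor D 0 _ _ _ (fun k => ?_) hzero, ?_⟩
    · rw [(eij_cor b).1 k]
      funext j
      fin_cases j <;> rfl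
    · intro k i h
      by_cases hk : k = b
      · subst hk
        have hb' : ¬ Out D 1 k 1 := fun h' => hb ((hpz k 1).mpr h')
        fin_cases i
        · simp [eij]
        · exact absurd h hb'
        · simp [eij]
        · simp [eij]
        · exact absurd h hb'
        · simp [eij]
      · simp [eij, hk]
  · intro b hb
    rw [mem_netD]
    refine ⟨Sol_cor D 0 _ _ _ (fun k => ?_) hzero, ?_⟩
    · rw [(eij_cor b).2 k]
      funext j
      fin_cases j <;> rfl
    · intro k i h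
      by_cases hk : k = b
      · subst hk
        have hb' : ¬ Out D 1 k 3 := fun h' => hb ((hpz k 2).mpr h')
        fin_cases i
        · simp [eij]
        · simp [eij]
        · exact absurd h hb'
        · simp [eij]
        · simp [eij]
        · exact absurd h hb'
      · simp [eij, hk]

/-- the maximum is critical -/
theorem crit_netD {D : List Pc} (hV : Val D 1) {a0 : Fin D.length → Fin 6 → ℤ} (h : So D a0 1)
    {a : Fin D.length → Fin 6 → ℝ} (ha : Mx D a) (δ : Fin D.length → Fin 6 → ℤ) (hδ : So D δ 0) :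
    ∑ b, ∑ i, (Real.log (Real.tan (Real.pi * a b i)) * (δ b i : ℝ) +
      Real.log (Real.cos (Real.pi * a b i)) * dn (toR δ b) i) = 0 := by
  have hA := ang_netD hV h
  have hm : toR δ ∈ (netD D a0 h).LR := Submodule.subset_span ⟨δ, hδ, rfl⟩
  exact Pool.Agent.Q299.FAL.task_CR D.length (netD D a0 h) a (good_netD hV h ha.1) a
    (by rw [hA]; exact ⟨ha.1.sol, ha.1.half, ha.1.nonneg⟩) (fun b i => Iff.rfl)
    (fun a' ha' => ha.2 a' (by rw [← hA]; exact ha')) (toR δ) hm

end Pool.Agent.Q206.HT
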