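import Pool.Agent.Q99.HT.Stm5
import Pool.Agent.Q299.FAL.LB
import Pool.Agent.Q299.FAL.SP
import Pool.Agent.Q237.FAL.OZ
import Pool.Agent.Q237.FAL.SO
import Pool.Agent.Q237.FAL.SUR
import Pool.Agent.Q237.FAL.NC
import Pool.Agent.Q224.FAL.GD

/-!
# Job HT-NE (project of helper99): the network of a diagram exists
-/

set_option autoImplicit false

namespace Pool.Agent.Q206.HT

open Finset Filter Topology MeasureTheory
open Pool.Agent.Q99.FAL (bq hh S_T1 Pc Ty Val Pri Pos AS Sol Out c6 fV n1 n2 cor dn Net up wd stp cls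
  zz IsLat nV toR eij S_LB S_SP S_SUR S_NC S_SO S_OZ)
open Pool.Agent.Q99.HT
open Pool.Agent.Q224.FAL (Sol_cor sol_add sol_smul sol_cast lat)
open Pool.Agent.Q237.FAL (task_SO task_OZ task_SUR task_NC)

/-- the three corners with six entries -/
def cf {R : Type} [CommRing R] (β : Bool) (x : Fin 6 → R) : Fin 6 → R :=
  ![x 0, if β then x 1 + x 4 else x 2 + x 5, x 3, 0, 0, 0]

/-- the corners of a vector, as a linear map -/
def cl (R : Type) [CommRing R] {c : ℕ} (β : Fin c → Bool) :
    (Fin c → Fin 6 → R) →ₗ[R] (Fin c → Fin 6 → R) where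
  toFun x := fun s => cf (β s) (x s)
  map_add' x y := by
    funext s i
    fin_cases i <;> simp [cf]
    cases β s <;> simp <;> ring
  map_smul' r x := by
    funext s i
    fin_cases i <;> simp [cf]
    cases β s <;> simp <;> ring

/-- the first three indices -/
def i3 : Fin 3 → Fin 6 := ![0, 1, 2]

theorem cf_i3 {R : Type} [CommRing R] (β : Bool) (x : Fin 6 → R) (i : Fin 3) :
    cf β x (i3 i) = cv β x i := by
  fin_cases i <;> rfl

theorem cf_hi {R : Type} [CommRing R] (β : Bool) (x : Fin 6 → R) :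
    cf β x 3 = 0 ∧ cf β x 4 = 0 ∧ cf β x 5 = 0 := ⟨rfl, rfl, rfl⟩

theorem qc_bf (β : Bool) (x : Fin 6 → ℝ) : qc (bf β x) = cv β x := by
  funext i
  cases β <;> fin_cases i <;> rfl

/-- an integral solution, and the lattice -/
theorem exists_a0 (D : List Pc) (hV : Val D 1) (hP : Pri D 1) (hD : D ≠ []) :
    ∃ a0 : Fin D.length → Fin 6 → ℤ, So D a0 1 := by
  have hncl : (D.map fun P => Pool.Agent.Q99.FAL.ncl P.ty).sum = D.length := by
    have := task_NC.1 D 1 hV
    omega
  obtain ⟨a0, o0, s0, c0, g0⟩ := task_SUR ℤ D 1 hV hP hD [0, 0] rfl rfl rfl (fun _ => 1)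
    (List.replicate D.length 1) (by rw [List.length_replicate, hncl]) (by simp)
  refine ⟨a0, ?_, o0⟩
  rw [task_SO.1 ℤ D a0 [0, 0] 1]
  refine ⟨s0, ?_, g0⟩
  intro c hc
  rw [c0] at hc
  exact List.eq_of_mem_replicate hc

theorem toR_cl {c : ℕ} (β : Fin c → Bool) (δ : Fin c → Fin 6 → ℤ) :
    toR (cl ℤ β δ) = cl ℝ β (toR δ) := by
  funext s i
  show ((cf (β s) (δ s) i : ℤ) : ℝ) = cf (β s) (fun i => ((δ s i : ℤ) : ℝ)) i
  fin_cases i <;> simp [cf]

theorem task_NE : S_NE := by
  classical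
  intro D hV hP hD a ha
  obtain ⟨a0, h0, o0⟩ := exists_a0 D hV hP hD
  obtain ⟨hpos, -⟩ := ha
  set L := lat task_SO D a0 h0 with hL
  have hlat : IsLat D L := fun δ => Iff.rfl
  let β : Fin D.length → Bool := fun s => decide (a s 1 ≤ a s 2)
  let X : Net D.length := ⟨L.map (cl ℤ β), 0⟩
  obtain ⟨E, hE1, hE2, hE3, hE4⟩ := Pool.Agent.Q299.FAL.task_LB D.length X
  -- the basis vectors are corners of solutions
  have hEm : ∀ j, ∃ δ ∈ L, cl ℤ β δ = E j := by
    intro j
    have h := hE1 (Pi.single j 1)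
    have e : ∑ k, (Pi.single j 1 : Fin (Module.finrank ℤ X.L) → ℤ) k • E k = E j := by
      rw [Finset.sum_eq_single j]
      · simp
      · intro b _ hb
        rw [Pi.single_eq_of_ne hb, zero_smul]
      · intro h; exact absurd (mem_univ j) h
    rw [e] at h
    exact Submodule.mem_map.1 h
  have hEz : ∀ j s, E j s 3 = 0 ∧ E j s 4 = 0 ∧ E j s 5 = 0 := by
    intro j s
    obtain ⟨δ, -, hδ⟩ := hEm j
    rw [← hδ]
    exact cf_hi (β s) (δ s)
  -- the real solution
  have hsolR : Sol D (a - toR a0) [0, 0] (0 : ℝ) := by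
    have h4 := sol_add task_SO hpos.sol (sol_smul task_SO (-1) (sol_cast task_SO h0))
    have e : a + (-1 : ℝ) • toR a0 = a - toR a0 := by
      rw [neg_one_smul, sub_eq_add_neg]
    rw [e] at h4
    simpa using h4
  have houtR : ∀ k i, Out D 1 k (c6 i) → (a - toR a0) k i = 0 := by
    intro k i h
    have h5 := task_OZ.1 D 1 hV a [0, 0] 1 rfl (by simp) hpos.nonneg hpos.sol k i h
    rw [Pi.sub_apply, Pi.sub_apply, h5]
    show 0 - ((a0 k i : ℤ) : ℝ) = 0
    rw [o0 k i h]
    simp
  have hspan := Pool.Agent.Q299.FAL.task_SP task_SO D L hlat _ hsolR houtR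
  have hspan' : cl ℝ β (a - toR a0) ∈ X.LR := by
    show cl ℝ β (a - toR a0) ∈ Submodule.span ℝ (toR '' ((L.map (cl ℤ β) : Submodule ℤ _) : Set _))
    have h6 : cl ℝ β (a - toR a0) ∈ (Submodule.span ℝ (toR '' (L : Set _))).map (cl ℝ β) :=
      Submodule.mem_map_of_mem hspan
    rw [Submodule.map_span] at h6
    refine Submodule.span_mono ?_ h6
    rintro _ ⟨_, ⟨δ, hδ, rfl⟩, rfl⟩
    exact ⟨cl ℤ β δ, Submodule.mem_map_of_mem hδ, toR_cl β δ⟩
  obtain ⟨τ, hτ⟩ := hE4 _ hspan'
  let Y : Nw D.length (Module.finrank ℤ X.L) :=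
    ⟨fun j s i => E j s (i3 i), fun s => cv (β s) (a0 s), fun s => bf (β s) (a s), τ⟩
  refine ⟨Module.finrank ℤ X.L, β, Y, ?_, fun s => rfl, ⟨a0, ⟨h0, o0⟩, fun s => rfl⟩, ?_, ?_, ?_, ?_⟩
  · intro s
    exact decide_eq_true_iff
  · intro j
    obtain ⟨δ, hδ, he⟩ := hEm j
    refine ⟨δ, hδ, fun s => ?_⟩
    funext i
    show E j s (i3 i) = _
    rw [← he, ← cf_i3]
    rfl
  · intro δ hδ
    have hm : cl ℤ β δ ∈ X.L := Submodule.mem_map_of_mem (show δ ∈ L from hδ)
    obtain ⟨t, ht, hu⟩ := hE2 _ hm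
    have key : ∀ t : Fin (Module.finrank ℤ X.L) → ℤ,
        (∀ s i, cv (β s) (δ s) i = ∑ j, t j * Y.E j s i) ↔ cl ℤ β δ = ∑ j, t j • E j := by
      intro t
      constructor
      · intro h
        funext s i
        have hs : (∑ j, t j • E j) s i = ∑ j, t j * E j s i := by
          simp [Finset.sum_apply]
        rw [hs]
        have h3 : ∀ i : Fin 3, cl ℤ β δ s (i3 i) = ∑ j, t j * E j s (i3 i) := by
          intro i
          have := h s i
          rw [← cf_i3] at this
          exact this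
        fin_cases i
        · exact h3 0
        · exact h3 1
        · exact h3 2
        · rw [Finset.sum_eq_zero (fun j _ => by
            show t j * E j s 3 = 0
            rw [(hEz j s).1, mul_zero])]
          rfl
        · rw [Finset.sum_eq_zero (fun j _ => by
            show t j * E j s 4 = 0
            rw [(hEz j s).2.1, mul_zero])]
          rfl
        · rw [Finset.sum_eq_zero (fun j _ => by
            show t j * E j s 5 = 0
            rw [(hEz j s).2.2, mul_zero])]
          rfl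
      · intro h s i
        rw [← cf_i3]
        show cl ℤ β δ s (i3 i) = _
        rw [h]
        simp [Finset.sum_apply, Y]
    exact ⟨t, (key t).2 ht, fun t' ht' => hu t' ((key t').1 ht')⟩
  · intro t ht
    apply hE3
    funext s i
    have hs : (∑ j, t j • toR (E j)) s i = ∑ j, t j * (E j s i : ℝ) := by
      simp [Finset.sum_apply, toR]
    rw [hs]
    fin_cases i
    · exact ht s 0
    · exact ht s 1
    · exact ht s 2
    · exact Finset.sum_eq_zero (fun j _ => by
        show t j * ((E j s 3 : ℤ) : ℝ) = 0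
        rw [(hEz j s).1]; simp)
    · exact Finset.sum_eq_zero (fun j _ => by
        show t j * ((E j s 4 : ℤ) : ℝ) = 0
        rw [(hEz j s).2.1]; simp)
    · exact Finset.sum_eq_zero (fun j _ => by
        show t j * ((E j s 5 : ℤ) : ℝ) = 0
        rw [(hEz j s).2.2]; simp)
  · intro s i
    show qc (bf (β s) (a s)) i = ((cv (β s) (a0 s) i : ℤ) : ℝ) + ∑ j, τ j * ((E j s (i3 i) : ℤ) : ℝ)
    rw [qc_bf]
    have h7 := congrFun (congrFun hτ s) (i3 i)
    have hs : (∑ j, τ j • toR (E j)) s (i3 i) = ∑ j, τ j * (E j s (i3 i) : ℝ) := by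
      simp [Finset.sum_apply, toR]
    rw [hs] at h7
    rw [← h7]
    show cv (β s) (a s) i = _ + cf (β s) ((a - toR a0) s) (i3 i)
    rw [cf_i3]
    fin_cases i
    · simp [cv, toR]
    · simp only [cv]
      cases β s
      · simp [toR]; ring
      · simp [toR]; ring
    · simp [cv, toR]

end Pool.Agent.Q206.HT
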