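import Pool.Agent.Q206.HT.Good

/-!
# Job HT-NO (project of helper99): the network of a diagram is good
-/

set_option autoImplicit false

namespace Pool.Agent.Q206.HT

open Finset Filter Topology MeasureTheory
open Pool.Agent.Q99.FAL (bq hh S_T1 Pc Ty Val Pri Pos AS Sol Out c6 fV n1 n2 cor dn Net up wd stp cls
  zz IsLat nV toR eij S_LB S_SP S_SUR S_NC S_SO S_OZ)
open Pool.Agent.Q99.HT
open Pool.Agent.Q224.FAL (Sol_cor sol_add sol_smul sol_cast lat Out_13 Out_02 eij_cor)
open Pool.Agent.Q237.FAL (task_SO task_OZ task_SUR task_NC)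

/-- a sum over the angles does not change -/
theorem sum_bf (β : Bool) (f : ℝ → ℝ) (x : Fin 6 → ℝ) (y : Fin 6 → ℝ) :
    ∑ i, f (x i) * (bf β y) i = ∑ i, f (bf β x i) * y i := by
  cases β
  · simp only [bf, Fin.sum_univ_six, Bool.false_eq_true, if_false]
    simp only [Matrix.cons_val_zero, Matrix.cons_val_one, Matrix.cons_val]
    ring
  · simp only [bf, if_true]

/-- the facts on the angles of one region -/
theorem region {x : Fin 6 → ℝ} (nn : ∀ i, 0 ≤ x i) (h1 : x 0 + x 1 + x 2 = 1 / 2)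
    (h2 : x 3 + x 4 + x 5 = 1 / 2) (s1 : x 1 = 0 ↔ x 4 = 0) (s2 : x 2 = 0 ↔ x 5 = 0)
    (s3 : ¬ (x 1 = 0 ∧ x 2 = 0)) (s4 : ¬ (x 0 = 0 ∧ x 3 = 0 ∧ (x 1 = 0 ∨ x 2 = 0)))
    (cr : x 1 ≠ 0 → x 2 ≠ 0 → Real.tan (Real.pi * x 1) * Real.tan (Real.pi * x 5) =
      Real.tan (Real.pi * x 2) * Real.tan (Real.pi * x 4)) (q0 : x 0 ≤ 1 / 4) (q3 : x 3 ≤ 1 / 4)
    (β : Bool) (hβ : β = true ↔ x 1 ≤ x 2) : Fr (bf β x) ∧ Acu (bf β x) := by
  have hpi := Real.pi_pos
  have n0 := nn 0
  have n1 := nn 1
  have n2 := nn 2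
  have n3 := nn 3
  have n4 := nn 4
  have n5 := nn 5
  cases β
  · have hlt : x 2 < x 1 := by
      by_contra hcon
      have := hβ.2 (not_lt.1 hcon)
      simp at this
    have hx1 : x 1 ≠ 0 := by linarith
    have hx4 : x 4 ≠ 0 := fun h => hx1 (s1.2 h)
    have hF : Fr (bf false x) := by
      refine ⟨?_, ?_, ?_, ?_, ?_, ?_, ?_, ?_⟩
      · intro i; fin_cases i <;> simp [bf] <;> assumption
      · show x 0 + x 2 + x 1 = 1 / 2; linarith
      · show x 3 + x 5 + x 4 = 1 / 2; linarith
      · show 0 < x 1; exact lt_of_le_of_ne n1 (Ne.symm hx1)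
      · show 0 < x 4; exact lt_of_le_of_ne n4 (Ne.symm hx4)
      · exact s2
      · intro hx2
        show Real.tan (Real.pi * x 2) * Real.tan (Real.pi * x 4) =
          Real.tan (Real.pi * x 1) * Real.tan (Real.pi * x 5)
        exact (cr hx1 hx2).symm
      · rintro ⟨ha, hb, hc⟩
        exact s4 ⟨ha, hc, Or.inr hb⟩
    refine ⟨hF, ?_⟩
    have o12 : x 2 ≤ x 1 := hlt.le
    refine ⟨o12, ?_, q0, q3⟩
    show x 5 ≤ x 4
    by_cases hx2 : x 2 = 0
    · rw [s2.1 hx2]; exact n4
    · have hx5 : x 5 ≠ 0 := fun h => hx2 (s2.2 h)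
      have p1 := lt_of_le_of_ne n1 (Ne.symm hx1)
      have p2 := lt_of_le_of_ne n2 (Ne.symm hx2)
      have p4 := lt_of_le_of_ne n4 (Ne.symm hx4)
      have p5 := lt_of_le_of_ne n5 (Ne.symm hx5)
      by_contra hcon
      push Not at hcon
      have t12 : Real.tan (Real.pi * x 2) < Real.tan (Real.pi * x 1) :=
        Real.tan_lt_tan_of_lt_of_lt_pi_div_two (by nlinarith) (by nlinarith) (by nlinarith)
      have t45 : Real.tan (Real.pi * x 4) < Real.tan (Real.pi * x 5) :=
        Real.tan_lt_tan_of_lt_of_lt_pi_div_two (by nlinarith) (by nlinarith) (by nlinarith)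
      have c2 : 0 < Real.tan (Real.pi * x 2) := Real.tan_pos_of_pos_of_lt_pi_div_two (by positivity) (by nlinarith)
      have c4 : 0 < Real.tan (Real.pi * x 4) := Real.tan_pos_of_pos_of_lt_pi_div_two (by positivity) (by nlinarith)
      have := cr hx1 hx2
      nlinarith
  · have hle : x 1 ≤ x 2 := hβ.1 rfl
    have hx2 : x 2 ≠ 0 := by
      intro h
      exact s3 ⟨by linarith, h⟩
    have hx5 : x 5 ≠ 0 := fun h => hx2 (s2.2 h)
    have hF : Fr (bf true x) := by
      refine ⟨nn, h1, h2, lt_of_le_of_ne n2 (Ne.symm hx2), lt_of_le_of_ne n5 (Ne.symm hx5), s1,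
        fun hx1 => cr hx1 hx2, ?_⟩
      rintro ⟨ha, hb, hc⟩
      exact s4 ⟨ha, hc, Or.inl hb⟩
    refine ⟨hF, hle, ?_, q0, q3⟩
    show x 4 ≤ x 5
    by_cases hx1 : x 1 = 0
    · rw [s1.1 hx1]; exact n5
    · have hx4 : x 4 ≠ 0 := fun h => hx1 (s1.2 h)
      have p1 := lt_of_le_of_ne n1 (Ne.symm hx1)
      have p2 := lt_of_le_of_ne n2 (Ne.symm hx2)
      have p4 := lt_of_le_of_ne n4 (Ne.symm hx4)
      have p5 := lt_of_le_of_ne n5 (Ne.symm hx5)
      by_contra hcon
      push Not at hcon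
      have t12 : Real.tan (Real.pi * x 1) ≤ Real.tan (Real.pi * x 2) := by
        rcases hle.eq_or_lt with h | h
        · rw [h]
        · exact (Real.tan_lt_tan_of_lt_of_lt_pi_div_two (by nlinarith) (by nlinarith) (by nlinarith)).le
      have t45 : Real.tan (Real.pi * x 5) < Real.tan (Real.pi * x 4) :=
        Real.tan_lt_tan_of_lt_of_lt_pi_div_two (by nlinarith) (by nlinarith) (by nlinarith)
      have c1 : 0 < Real.tan (Real.pi * x 1) := Real.tan_pos_of_pos_of_lt_pi_div_two (by positivity) (by nlinarith)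
      have c5 : 0 < Real.tan (Real.pi * x 5) := Real.tan_pos_of_pos_of_lt_pi_div_two (by positivity) (by nlinarith)
      have := cr hx1 hx2
      nlinarith

/-- the linear form `ml` in terms of the logarithms of the tangents -/
theorem ml_log {α : Fin 6 → ℝ} (hF : Fr α) (A b C : ℝ) (hA : α 0 = 0 → A = 0) (hb : α 1 = 0 → b = 0)
    (hC : α 3 = 0 → C = 0) :
    ml α 0 * A + ml α 1 * b + ml α 2 * C =
      -(∑ i, Real.log (Real.tan (Real.pi * α i)) * (![A, b, -A - b, C, 0, -C] : Fin 6 → ℝ) i) := by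
  have hpi := Real.pi_pos
  have n0 := hF.nn 0
  have n1 := hF.nn 1
  have n3 := hF.nn 3
  have n4 := hF.nn 4
  have s1 := hF.s1
  have s2 := hF.s2
  have p2 := hF.p2
  have p5 := hF.p5
  -- a quotient of tangents
  have key : ∀ u v y : ℝ, 0 ≤ u → 0 < v → u + v ≤ 1 / 2 → (u = 0 → y = 0) →
      Real.log (Real.tan (Real.pi * v) / Real.tan (Real.pi * u)) * y =
        Real.log (Real.tan (Real.pi * v)) * y - Real.log (Real.tan (Real.pi * u)) * y := by
    intro u v y hu hv huv hy
    by_cases h0 : u = 0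
    · rw [hy h0]; ring
    · have hu' := lt_of_le_of_ne hu (Ne.symm h0)
      have t1 : 0 < Real.tan (Real.pi * u) :=
        Real.tan_pos_of_pos_of_lt_pi_div_two (by positivity) (by nlinarith)
      have t2 : 0 < Real.tan (Real.pi * v) :=
        Real.tan_pos_of_pos_of_lt_pi_div_two (by positivity) (by nlinarith)
      rw [Real.log_div t2.ne' t1.ne']
      ring
  have e0 : ml α 0 * A = _ := key (α 0) (α 2) A n0 p2 (by linarith) hA
  have e1 : ml α 1 * b = _ := key (α 1) (α 2) b n1 p2 (by linarith) hb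
  have e2 : ml α 2 * C = _ := key (α 3) (α 5) C n3 p5 (by linarith) hC
  rw [e0, e1, e2, Fin.sum_univ_six]
  simp only [Matrix.cons_val_zero, Matrix.cons_val_one, Matrix.cons_val]
  ring

/-- the vector with given corners and vanishing triangle sums -/
def ac {R : Type} [CommRing R] (β : Bool) (y : Fin 3 → R) : Fin 6 → R :=
  bf β ![y 0, y 1, -y 0 - y 1, y 2, 0, -y 2]

theorem ac_cor {R : Type} [CommRing R] (β : Bool) (x : Fin 6 → R) (h : n1 x + n2 x = 0) :
    cor x = cor (ac β (cv β x)) := by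
  have h' : x 0 + x 1 + x 2 + (x 3 + x 4 + x 5) = 0 := h
  funext j
  cases β
  · fin_cases j
    · rfl
    · show x 1 + x 4 = (-x 0 - (x 2 + x 5)) + (-x 3)
      linear_combination h'
    · rfl
    · show x 2 + x 5 = (x 2 + x 5) + 0
      ring
  · fin_cases j
    · rfl
    · show x 1 + x 4 = (x 1 + x 4) + 0
      ring
    · rfl
    · show x 2 + x 5 = (-x 0 - (x 1 + x 4)) + (-x 3)
      linear_combination h'

theorem ac_n {R : Type} [CommRing R] (β : Bool) (y : Fin 3 → R) :
    n1 (ac β y) = 0 ∧ n2 (ac β y) = 0 := by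
  cases β
  · constructor
    · show y 0 + (-y 0 - y 1) + y 1 = 0
      ring
    · show y 2 + (-y 2) + 0 = 0
      ring
  · constructor
    · show y 0 + y 1 + (-y 0 - y 1) = 0
      ring
    · show y 2 + 0 + (-y 2) = 0
      ring

theorem n_cast (y : Fin 6 → ℤ) : n1 (fun i => (y i : ℝ)) = ((n1 y : ℤ) : ℝ) ∧
    n2 (fun i => (y i : ℝ)) = ((n2 y : ℤ) : ℝ) := by
  constructor <;> simp [n1, n2]

theorem task_NO : S_NO := by
  classical
  intro D hV hP hD a ha hq d β Y hY
  obtain ⟨a0, h0, hY0⟩ := hY.q0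
  have hp := ha.1
  have hpz := outer_iff hV hp
  have hG := good_netD hV h0 hp
  have hAng := hG.ang
  have hh1 : ∀ s, a s 0 + a s 1 + a s 2 = 1 / 2 := fun s => (hAng.2.2 s).1
  have hh2 : ∀ s, a s 3 + a s 4 + a s 5 = 1 / 2 := fun s => (hAng.2.2 s).2
  have nn := hp.nonneg
  have hpi := Real.pi_pos
  -- the relation of the tangents
  have hcr : ∀ s, a s 1 ≠ 0 → a s 2 ≠ 0 → Real.tan (Real.pi * a s 1) * Real.tan (Real.pi * a s 5) =
      Real.tan (Real.pi * a s 2) * Real.tan (Real.pi * a s 4) := by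
    intro s hx1 hx2
    have hx4 : a s 4 ≠ 0 := fun h => hx1 ((hG.s1 s).2 h)
    have hx5 : a s 5 ≠ 0 := fun h => hx2 ((hG.s2 s).2 h)
    have m1 : So D (eij s 1 4) 0 := hG.z1 s hx1
    have m2 : So D (eij s 2 5) 0 := hG.z2 s hx2
    have m : So D (eij s 1 4 - eij s 2 5) 0 := by
      have := (netD D a0 h0).L.sub_mem (hG.z1 s hx1) (hG.z2 s hx2)
      exact this
    have hc := crit_netD hV h0 ha _ m
    have hdn : ∀ b i, dn (toR (eij s 1 4 - eij s 2 5) b) i = 0 := by
      intro b i
      have e1 : n1 (toR (eij s 1 4 - eij s 2 5) b) = 0 := by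
        by_cases hb : b = s
        · simp [n1, toR, eij, hb]
        · simp [n1, toR, eij, hb]
      have e2 : n2 (toR (eij s 1 4 - eij s 2 5) b) = 0 := by
        by_cases hb : b = s
        · simp [n2, toR, eij, hb]
        · simp [n2, toR, eij, hb]
      unfold dn
      split
      · exact e2
      · exact e1
    rw [Finset.sum_eq_single s] at hc
    · simp only [hdn, mul_zero, add_zero] at hc
      rw [Fin.sum_univ_six] at hc
      simp [eij] at hc
      have c0 := nn s 0
      have c3 := nn s 3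
      have q1 := lt_of_le_of_ne (nn s 1) (Ne.symm hx1)
      have q2 := lt_of_le_of_ne (nn s 2) (Ne.symm hx2)
      have q4 := lt_of_le_of_ne (nn s 4) (Ne.symm hx4)
      have q5 := lt_of_le_of_ne (nn s 5) (Ne.symm hx5)
      have g1 := hh1 s
      have g2 := hh2 s
      have t1 : 0 < Real.tan (Real.pi * a s 1) :=
        Real.tan_pos_of_pos_of_lt_pi_div_two (by positivity) (by nlinarith)
      have t2 : 0 < Real.tan (Real.pi * a s 2) :=
        Real.tan_pos_of_pos_of_lt_pi_div_two (by positivity) (by nlinarith)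
      have t4 : 0 < Real.tan (Real.pi * a s 4) :=
        Real.tan_pos_of_pos_of_lt_pi_div_two (by positivity) (by nlinarith)
      have t5 : 0 < Real.tan (Real.pi * a s 5) :=
        Real.tan_pos_of_pos_of_lt_pi_div_two (by positivity) (by nlinarith)
      apply Real.log_injOn_pos (Set.mem_Ioi.2 (mul_pos t1 t5)) (Set.mem_Ioi.2 (mul_pos t2 t4))
      rw [Real.log_mul t1.ne' t5.ne', Real.log_mul t2.ne' t4.ne']
      linarith
    · intro b _ hb
      apply Finset.sum_eq_zero
      intro i _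
      rw [hdn b i]
      simp [eij, hb]
    · intro h; exact absurd (mem_univ s) h
  have hreg : ∀ s, Fr (bf (β s) (a s)) ∧ Acu (bf (β s) (a s)) := fun s =>
    region (nn s) (hh1 s) (hh2 s) (hG.s1 s) (hG.s2 s) (hG.s3 s) (hG.s4 s) (hcr s) (hq s).1 (hq s).2
      (β s) (hY.be s)
  -- outer corners
  have hout : ∀ s i, cv (β s) (a s) i = 0 → ∀ {R : Type} [CommRing R] (x : Fin D.length → Fin 6 → R),
      (∀ k i, Out D 1 k (c6 i) → x k i = 0) → cv (β s) (x s) i = 0 := by
    intro s i hi R _ x hx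
    have hb : ∀ {j k : Fin 6}, a s j + a s k = 0 → x s j + x s k = 0 := by
      intro j k hjk
      have e1 : a s j = 0 := by have := nn s j; have := nn s k; linarith
      have e2 : a s k = 0 := by have := nn s j; have := nn s k; linarith
      rw [hx s j ((hpz s j).1 e1), hx s k ((hpz s k).1 e2), add_zero]
    fin_cases i
    · exact hx s 0 ((hpz s 0).1 hi)
    · generalize β s = c at hi ⊢
      cases c
      · exact hb hi
      · exact hb hi
    · exact hx s 3 ((hpz s 3).1 hi)
  refine ⟨⟨?_, ?_, hY.ctr, ?_, hY.inj, ?_⟩, ?_⟩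
  · intro s; rw [hY.al]; exact (hreg s).1
  · intro s; rw [hY.al]; exact (hreg s).2
  · intro j
    obtain ⟨δ, hδ, hE⟩ := hY.E1 j
    have hsum : ∀ k, n1 (δ k) + n2 (δ k) = 0 := ((task_SO.1 ℤ D δ [0, 0] 0).mp hδ.1).1
    -- the modified vector
    have hδ' : So D (fun s => ac (β s) (cv (β s) (δ s))) 0 := by
      refine ⟨Sol_cor D δ _ _ _ (fun k => ac_cor (β k) (δ k) (hsum k)) hδ.1, ?_⟩
      intro k i ho
      have hai := (hpz k i).2 ho
      have hFk := (hreg k).1
      have hz : ∀ i, Out D 1 k (c6 i) → δ k i = 0 := hδ.2 k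
      have hA : Out D 1 k 0 → δ k 0 = 0 := fun h => hz 0 h
      have hC : Out D 1 k 2 → δ k 3 = 0 := fun h => hz 3 h
      have hR : Out D 1 k 1 → δ k 1 + δ k 4 = 0 := fun h => by rw [hz 1 h, hz 4 h, add_zero]
      have hL : Out D 1 k 3 → δ k 2 + δ k 5 = 0 := fun h => by rw [hz 2 h, hz 5 h, add_zero]
      have p2 := hFk.p2
      have p5 := hFk.p5
      show ac (β k) (cv (β k) (δ k)) i = 0
      generalize β k = c at p2 p5 ⊢
      cases c
      · -- the eliminated corner is the right one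
        have p2' : 0 < a k 1 := p2
        have p5' : 0 < a k 4 := p5
        fin_cases i
        · exact hA ho
        · exact absurd hai p2'.ne'
        · exact hL ho
        · exact hC ho
        · exact absurd hai p5'.ne'
        · rfl
      · have p2' : 0 < a k 2 := p2
        have p5' : 0 < a k 5 := p5
        fin_cases i
        · exact hA ho
        · exact hR ho
        · exact absurd hai p2'.ne'
        · exact hC ho
        · rfl
        · exact absurd hai p5'.ne'
    have hc := crit_netD hV h0 ha _ hδ'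
    have hdn : ∀ b i, dn (toR (fun s => ac (β s) (cv (β s) (δ s))) b) i = 0 := by
      intro b i
      have e1 : n1 (toR (fun s => ac (β s) (cv (β s) (δ s))) b) = 0 := by
        have h1 := (n_cast (ac (β b) (cv (β b) (δ b)))).1
        rw [(ac_n (β b) (cv (β b) (δ b))).1, Int.cast_zero] at h1
        exact h1
      have e2 : n2 (toR (fun s => ac (β s) (cv (β s) (δ s))) b) = 0 := by
        have h1 := (n_cast (ac (β b) (cv (β b) (δ b)))).2
        rw [(ac_n (β b) (cv (β b) (δ b))).2, Int.cast_zero] at h1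
        exact h1
      unfold dn
      split
      · exact e2
      · exact e1
    simp only [hdn, mul_zero, add_zero] at hc
    have hterm : ∀ s, ∑ i, ml (Y.α s) i * (Y.E j s i : ℝ) =
        -(∑ i, Real.log (Real.tan (Real.pi * a s i)) * ((ac (β s) (cv (β s) (δ s)) i : ℤ) : ℝ)) := by
      intro s
      rw [hY.al, hE, Fin.sum_univ_three]
      have hz0 : ∀ i, cv (β s) (a s) i = 0 → ((cv (β s) (δ s) i : ℤ) : ℝ) = 0 := by
        intro i hi
        rw [hout s i hi δ hδ.2, Int.cast_zero]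
      rw [ml_log (hreg s).1 _ _ _ (fun h => hz0 0 (by rw [← qc_bf]; exact h))
        (fun h => hz0 1 (by
          rw [← qc_bf]
          show bf (β s) (a s) 1 + bf (β s) (a s) 4 = 0
          rw [h, (hreg s).1.z14.1 h, add_zero]))
        (fun h => hz0 2 (by rw [← qc_bf]; exact h))]
      rw [← sum_bf (β s) (fun t => Real.log (Real.tan (Real.pi * t)))]
      congr 1
      apply Finset.sum_congr rfl
      intro i _
      congr 1
      unfold ac bf
      cases β s
      · fin_cases i <;> simp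
      · fin_cases i <;> simp
    rw [Finset.sum_congr rfl (fun s _ => hterm s), Finset.sum_neg_distrib, hc, neg_zero]
  · intro s i hi
    rw [hY.al, qc_bf] at hi
    refine ⟨?_, fun j => ?_⟩
    · rw [hY0]; exact hout s i hi a0 h0.2
    · obtain ⟨δ, hδ, hE⟩ := hY.E1 j
      rw [hE]; exact hout s i hi δ hδ.2
  · unfold fV
    apply Finset.sum_congr rfl
    intro s _
    rw [hY.al]
    unfold v0
    have := sum_bf (β s) hh (a s) (fun _ => 1)
    have e : ∀ i, bf (β s) (fun _ => (1 : ℝ)) i = 1 := by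
      intro i; unfold bf
      cases β s
      · fin_cases i <;> simp
      · simp
    simp only [e, mul_one] at this
    exact this.symm

end Pool.Agent.Q206.HT
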