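import Pool.Agent.Q206.HT.VF1
import Pool.Agent.Q206.HT.Good

/-!
# Job HT-VF (project of helper99): the critical value is the volume
-/

set_option autoImplicit false

namespace Pool.Agent.Q206.HT

open Finset Filter Topology MeasureTheory
open Pool.Agent.Q99.FAL (bq hh S_T1 Pc Ty Val Pri Pos AS Sol Out c6 fV n1 n2 cor dn Net up wd stp cls
  zz IsLat nV toR eij)
open Pool.Agent.Q99.KN (LC bb St S_LC tet lbf S_BW)
open Pool.Agent.Q99.HT
open Pool.Agent.Q224.FAL (Out_13 Out_02)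
open Pool.Agent.Q237.FAL (task_SO task_OZ task_SUR task_NC)

/-- one bracket -/
theorem brk (hL : S_LC) (hB : S_BW) {ν ξ : ℂ} (h1 : ν ∈ St) (h2 : S0 ξ) (h3 : S0 (ν - ξ)) :
    tet (ee ξ) + tet (ee (ν - ξ)) - tet (ee ν) =
      2 * Real.pi * (LT ν ξ).re + 2 * Real.pi * (gT ν ξ (ν.im : ℂ) (ξ.im : ℂ)).im := by
  have b1 := bw_all hL hB (x := ν) (Or.inl h1)
  have b2 := bw_all hL hB h2
  have b3 := bw_all hL hB h3
  have e1 : (LT ν ξ).re = (LC ν).re - (LC (ν - ξ)).re - (LC ξ).re := by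
    unfold Pool.Agent.Q99.HT.LT
    rw [Complex.sub_re, Complex.sub_re]
  have e2 : (gT ν ξ (ν.im : ℂ) (ξ.im : ℂ)).im =
      ν.im * ((bb ν).im - (bb (ν - ξ)).im) + ξ.im * ((bb (ν - ξ)).im - (bb ξ).im) := by
    unfold gT
    rw [Complex.add_im, Complex.im_ofReal_mul, Complex.im_ofReal_mul, Complex.sub_im, Complex.sub_im]
  rw [Complex.sub_im] at b3
  rw [e1, e2]
  linear_combination (-1) * b1 + b2 + b3

/-- one region -/
theorem rgn (hL : S_LC) (hB : S_BW) {x : Fin 6 → ℂ} (hs : n1 x + n2 x = 1) (h1 : n1 x ∈ St)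
    (h2 : ∀ i, S0 (x i)) (h3 : ∀ i, S0 (dn x i - x i)) :
    ∑ i, (tet (ee (x i)) + tet (ee (dn x i - x i))) =
      2 * Real.pi * (∑ i, LT (dn x i) (x i)).re +
        2 * Real.pi * (∑ i, gT (dn x i) (x i) ((dn x i).im : ℂ) ((x i).im : ℂ)).im := by
  have h2' : n2 x = 1 - n1 x := by linear_combination hs
  have hn2 : n2 x ∈ St := by
    rw [h2']
    obtain ⟨a, b⟩ := h1
    exact ⟨by simp; linarith, by simp; linarith⟩
  have hdn : ∀ i, dn x i ∈ St := by
    intro i
    unfold dn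
    split
    · exact hn2
    · exact h1
  have hz := tet_sub hL hB h1
  rw [← h2'] at hz
  have hsum : ∑ i, tet (ee (dn x i)) = 0 := by
    rw [Fin.sum_univ_six]
    have d0 : dn x 0 = n2 x := rfl
    have d1 : dn x 1 = n1 x := rfl
    have d2 : dn x 2 = n1 x := rfl
    have d3 : dn x 3 = n1 x := rfl
    have d4 : dn x 4 = n2 x := rfl
    have d5 : dn x 5 = n2 x := rfl
    rw [d0, d1, d2, d3, d4, d5]
    linarith
  have hb : ∀ i, tet (ee (x i)) + tet (ee (dn x i - x i)) = tet (ee (dn x i)) +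
      (2 * Real.pi * (LT (dn x i) (x i)).re +
        2 * Real.pi * (gT (dn x i) (x i) ((dn x i).im : ℂ) ((x i).im : ℂ)).im) := by
    intro i
    have := brk hL hB (hdn i) (h2 i) (h3 i)
    linarith
  rw [Finset.sum_congr rfl (fun i _ => hb i), Finset.sum_add_distrib, hsum, zero_add,
    Finset.sum_add_distrib, ← Finset.mul_sum, ← Finset.mul_sum, Complex.re_sum, Complex.im_sum]

/-- the radius -/
theorem exists_rho {c : ℕ} (a : Fin c → Fin 6 → ℝ) (h0 : ∀ s i, 0 ≤ a s i) (h1 : ∀ s i, a s i ≤ 1 / 2) :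
    ∃ ρ : ℝ, 0 < ρ ∧ ρ ≤ 1 / 64 ∧ ∀ s i, (a s i ≠ 0 → 8 * ρ ≤ a s i) ∧
      (a s i ≠ 1 / 2 → 8 * ρ ≤ 1 / 2 - a s i) := by
  have key : ∀ m : ℝ, 0 < m → ∀ᶠ ρ in 𝓝[>] (0 : ℝ), 8 * ρ ≤ m := by
    intro m hm
    have : ∀ᶠ ρ in 𝓝[>] (0 : ℝ), ρ < m / 8 :=
      nhdsWithin_le_nhds (Iio_mem_nhds (by positivity))
    filter_upwards [this] with ρ hρ
    linarith
  have e1 : ∀ᶠ ρ in 𝓝[>] (0 : ℝ), 0 < ρ := self_mem_nhdsWithin
  have e2 := key (1 / 8) (by norm_num)
  have e3 : ∀ᶠ ρ in 𝓝[>] (0 : ℝ), ∀ s i, (a s i ≠ 0 → 8 * ρ ≤ a s i) ∧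
      (a s i ≠ 1 / 2 → 8 * ρ ≤ 1 / 2 - a s i) := by
    rw [eventually_all]
    intro s
    rw [eventually_all]
    intro i
    by_cases h : a s i = 0
    · have := key (1 / 2 - a s i) (by rw [h]; norm_num)
      filter_upwards [this] with ρ hρ
      exact ⟨fun h' => absurd h h', fun _ => hρ⟩
    · have hp : 0 < a s i := lt_of_le_of_ne (h0 s i) (Ne.symm h)
      by_cases h' : a s i = 1 / 2
      · filter_upwards [key _ hp] with ρ hρ
        exact ⟨fun _ => hρ, fun h'' => absurd h' h''⟩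
      · have hq : 0 < 1 / 2 - a s i := by
          have := lt_of_le_of_ne (h1 s i) h'
          linarith
        filter_upwards [key _ hp, key _ hq] with ρ hρ hρ'
        exact ⟨fun _ => hρ, fun _ => hρ'⟩
  obtain ⟨ρ, h1, h2, h3⟩ := (e1.and (e2.and e3)).exists
  exact ⟨ρ, h1, by linarith, h3⟩

theorem task_VF : S_VF := by
  intro hL hB D hV hP hD a ha
  have nn := ha.nonneg
  have hn1 : ∀ s, a s 0 + a s 1 + a s 2 = 1 / 2 := ha.half
  have hn2 : ∀ s, a s 3 + a s 4 + a s 5 = 1 / 2 := by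
    intro s
    have h4 : n1 (a s) + n2 (a s) = 1 := ((task_SO.1 ℝ D a [0, 0] 1).mp ha.sol).1 s
    have h5 := ha.half s
    have h6 : n2 (a s) = 1 / 2 := by linarith
    exact h6
  have hle : ∀ s i, a s i ≤ 1 / 2 := by
    intro s i
    have m0 := nn s 0
    have m1 := nn s 1
    have m2 := nn s 2
    have m3 := nn s 3
    have m4 := nn s 4
    have m5 := nn s 5
    have g1 := hn1 s
    have g2 := hn2 s
    have hall : a s 0 ≤ 1 / 2 ∧ a s 1 ≤ 1 / 2 ∧ a s 2 ≤ 1 / 2 ∧ a s 3 ≤ 1 / 2 ∧ a s 4 ≤ 1 / 2 ∧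
        a s 5 ≤ 1 / 2 := by
      refine ⟨?_, ?_, ?_, ?_, ?_, ?_⟩ <;> linarith
    obtain ⟨q0, q1, q2, q3, q4, q5⟩ := hall
    fin_cases i
    · exact q0
    · exact q1
    · exact q2
    · exact q3
    · exact q4
    · exact q5
  obtain ⟨ρ, hρ0, hρ1, hρ⟩ := exists_rho a nn hle
  refine ⟨ρ, hρ0, ?_⟩
  intro w x hx hd
  obtain ⟨⟨hxs, hxo⟩, hcr⟩ := hx
  have hsum : ∀ s, n1 (x s) + n2 (x s) = 1 := ((task_SO.1 ℂ D x [0, 0] 1).mp hxs).1
  have hpz := outer_iff hV ha
  have hx0 : ∀ s i, a s i = 0 → x s i = 0 := fun s i h => hxo s i ((hpz s i).1 h)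
  -- real parts
  have hre : ∀ s i, |(x s i).re - a s i| < ρ := by
    intro s i
    have h1 := Complex.abs_re_le_norm (x s i - a s i)
    rw [Complex.sub_re, Complex.ofReal_re] at h1
    exact h1.trans_lt (hd s i)
  have hre1 : ∀ s i, a s i - ρ < (x s i).re := fun s i => by
    have := (abs_lt.1 (hre s i)).1
    linarith
  have hre2 : ∀ s i, (x s i).re < a s i + ρ := fun s i => by
    have := (abs_lt.1 (hre s i)).2
    linarith
  have hn1re : ∀ s, (n1 (x s)).re = (x s 0).re + (x s 1).re + (x s 2).re := fun s => by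
    unfold n1; rw [Complex.add_re, Complex.add_re]
  have hn2re : ∀ s, (n2 (x s)).re = (x s 3).re + (x s 4).re + (x s 5).re := fun s => by
    unfold n2; rw [Complex.add_re, Complex.add_re]
  have h1 : ∀ s, n1 (x s) ∈ St := by
    intro s
    have g := hn1 s
    have a0 := hre1 s 0
    have a1 := hre1 s 1
    have a2 := hre1 s 2
    have b0 := hre2 s 0
    have b1 := hre2 s 1
    have b2 := hre2 s 2
    refine ⟨?_, ?_⟩
    · rw [hn1re]; linarith
    · rw [hn1re]; linarith
  have h2 : ∀ s i, S0 (x s i) := by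
    intro s i
    by_cases h : a s i = 0
    · exact Or.inr (hx0 s i h)
    · left
      have m1 := (hρ s i).1 h
      have m2 := hle s i
      have m3 := hre1 s i
      have m4 := hre2 s i
      exact ⟨by linarith, by linarith⟩
  -- two angles of a triangle
  have hpair : ∀ s i j, (a s i = 0 ∧ a s j = 0) ∨ 8 * ρ ≤ a s i + a s j →
      a s i + a s j ≤ 1 / 2 → S0 (x s i + x s j) := by
    intro s i j h hh
    rcases h with ⟨h, h'⟩ | h
    · right
      rw [hx0 s i h, hx0 s j h', add_zero]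
    · left
      have m1 := hre1 s i
      have m2 := hre1 s j
      have m3 := hre2 s i
      have m4 := hre2 s j
      refine ⟨?_, ?_⟩
      · rw [Complex.add_re]; linarith
      · rw [Complex.add_re]; linarith
  have hpair' : ∀ s i j k, a s i + a s j + a s k = 1 / 2 → S0 (x s i + x s j) := by
    intro s i j k h
    have m1 := nn s i
    have m2 := nn s j
    have m3 := nn s k
    refine hpair s i j ?_ (by linarith)
    by_cases h' : a s k = 1 / 2
    · left; constructor <;> linarith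
    · right
      have := (hρ s k).2 h'
      linarith
  have h3 : ∀ s i, S0 (dn (x s) i - x s i) := by
    intro s i
    have hs := hsum s
    have g1 := hn1 s
    have g2 := hn2 s
    -- the angles `0` and `3`
    have h03 : ∀ i j : Fin 6, (a s i ≠ 1 / 2) → ∀ y : ℂ, y.re = (x s i).re →
        (∀ z : ℂ, 1 / 2 - 3 * ρ < z.re → z.re < 1 / 2 + 3 * ρ → S0 (z - y)) := by
      intro i j hi y hy z hz1 hz2
      left
      have m1 := (hρ s i).2 hi
      have m2 := hre1 s i
      have m3 := hre2 s i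
      have m4 := nn s i
      refine ⟨?_, ?_⟩
      · rw [Complex.sub_re, hy]; linarith
      · rw [Complex.sub_re, hy]; linarith
    have r1 : 1 / 2 - 3 * ρ < (n1 (x s)).re ∧ (n1 (x s)).re < 1 / 2 + 3 * ρ := by
      have a0 := hre1 s 0
      have a1 := hre1 s 1
      have a2 := hre1 s 2
      have b0 := hre2 s 0
      have b1 := hre2 s 1
      have b2 := hre2 s 2
      rw [hn1re]
      constructor <;> linarith
    have r2 : 1 / 2 - 3 * ρ < (n2 (x s)).re ∧ (n2 (x s)).re < 1 / 2 + 3 * ρ := by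
      have a0 := hre1 s 3
      have a1 := hre1 s 4
      have a2 := hre1 s 5
      have b0 := hre2 s 3
      have b1 := hre2 s 4
      have b2 := hre2 s 5
      rw [hn2re]
      constructor <;> linarith
    have hno : ¬ (a s 1 = 0 ∧ a s 2 = 0) := by
      rintro ⟨e1, e2⟩
      exact Out_13 hV s ⟨(hpz s 1).1 e1, (hpz s 2).1 e2⟩
    have hno' : ¬ (a s 4 = 0 ∧ a s 5 = 0) := by
      rintro ⟨e1, e2⟩
      exact Out_13 hV s ⟨(hpz s 4).1 e1, (hpz s 5).1 e2⟩
    have m1 := nn s 1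
    have m2 := nn s 2
    have m4 := nn s 4
    have m5 := nn s 5
    fin_cases i
    · refine h03 0 0 ?_ _ rfl _ r2.1 r2.2
      intro h
      exact hno ⟨by linarith, by linarith⟩
    · have e : dn (x s) 1 - x s 1 = x s 0 + x s 2 := by
        show x s 0 + x s 1 + x s 2 - x s 1 = _
        ring
      show S0 (dn (x s) 1 - x s 1)
      rw [e]
      exact hpair' s 0 2 1 (by linarith)
    · have e : dn (x s) 2 - x s 2 = x s 0 + x s 1 := by
        show x s 0 + x s 1 + x s 2 - x s 2 = _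
        ring
      show S0 (dn (x s) 2 - x s 2)
      rw [e]
      exact hpair' s 0 1 2 (by linarith)
    · refine h03 3 3 ?_ _ rfl _ r1.1 r1.2
      intro h
      exact hno' ⟨by linarith, by linarith⟩
    · have e : dn (x s) 4 - x s 4 = x s 3 + x s 5 := by
        show x s 3 + x s 4 + x s 5 - x s 4 = _
        ring
      show S0 (dn (x s) 4 - x s 4)
      rw [e]
      exact hpair' s 3 5 4 (by linarith)
    · have e : dn (x s) 5 - x s 5 = x s 3 + x s 4 := by
        show x s 3 + x s 4 + x s 5 - x s 5 = _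
        ring
      show S0 (dn (x s) 5 - x s 5)
      rw [e]
      exact hpair' s 3 4 5 (by linarith)
  -- the direction
  let δ : Fin D.length → Fin 6 → ℂ := fun s i => (((x s i).im : ℝ) : ℂ)
  have hδ : So D δ 0 := by
    refine ⟨?_, ?_⟩
    · have e1 := task_SO.2.2.2.1 ℂ ℝ Complex.imAddGroupHom D x [0, 0] 1 hxs
      have e2 := task_SO.2.2.2.1 ℝ ℂ (Complex.ofRealHom : ℝ →+* ℂ).toAddMonoidHom D _ _ _ e1
      simpa using e2
    · intro k i h
      show (((x k i).im : ℝ) : ℂ) = 0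
      rw [hxo k i h]
      simp
  have hG := congrArg Complex.im (hcr δ hδ)
  unfold GI at hG
  rw [Complex.im_sum, Complex.zero_im] at hG
  have hdn : ∀ s i, dn (δ s) i = (((dn (x s) i).im : ℝ) : ℂ) := by
    intro s i
    unfold dn
    split
    · show δ s 3 + δ s 4 + δ s 5 = (((n2 (x s)).im : ℝ) : ℂ)
      unfold n2
      rw [Complex.add_im, Complex.add_im]
      push_cast
      rfl
    · show δ s 0 + δ s 1 + δ s 2 = (((n1 (x s)).im : ℝ) : ℂ)
      unfold n1
      rw [Complex.add_im, Complex.add_im]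
      push_cast
      rfl
  have hnn : ∀ s, n1 (δ s) - n2 (δ s) = (((n1 (x s) - n2 (x s)).im : ℝ) : ℂ) := by
    intro s
    have e1 : n1 (δ s) = (((n1 (x s)).im : ℝ) : ℂ) := hdn s 1
    have e2 : n2 (δ s) = (((n2 (x s)).im : ℝ) : ℂ) := hdn s 0
    rw [e1, e2, Complex.sub_im]
    push_cast
    rfl
  have hterm : ∀ s, (∑ i, gT (dn (x s) i) (x s i) (dn (δ s) i) (δ s i) +
      (Complex.I * Real.pi * w s * (n1 (x s) - n2 (x s)) / 2 + Complex.I * Real.pi) *
        (n1 (δ s) - n2 (δ s))).im =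
      (∑ i, gT (dn (x s) i) (x s i) ((dn (x s) i).im : ℂ) ((x s i).im : ℂ)).im +
        (n1 (x s) - n2 (x s)).im *
          (Complex.I * Real.pi * w s * (n1 (x s) - n2 (x s)) / 2 + Complex.I * Real.pi).im := by
    intro s
    rw [Complex.add_im]
    congr 1
    · congr 1
      apply Finset.sum_congr rfl
      intro i _
      rw [hdn]
    · rw [hnn, mul_comm, Complex.im_ofReal_mul]
  rw [Finset.sum_congr rfl (fun s _ => hterm s), Finset.sum_add_distrib] at hG
  -- the value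
  have hV' : VI x = ∑ s, (2 * Real.pi * (∑ i, LT (dn (x s) i) (x s i)).re +
        2 * Real.pi * (∑ i, gT (dn (x s) i) (x s i) ((dn (x s) i).im : ℂ) ((x s i).im : ℂ)).im) := by
    unfold VI
    apply Finset.sum_congr rfl
    intro s _
    exact rgn hL hB (hsum s) (h1 s) (h2 s) (h3 s)
  have hPI : (PI w x).re = ∑ s, ((∑ i, LT (dn (x s) i) (x s i)).re -
      (n1 (x s) - n2 (x s)).im *
          (Complex.I * Real.pi * w s * (n1 (x s) - n2 (x s)) / 2 + Complex.I * Real.pi).im) := by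
    unfold PI
    rw [Complex.re_sum]
    apply Finset.sum_congr rfl
    intro s _
    rw [add_assoc, Complex.add_re, Pool.Agent.Q239.KN.quad_re]
    ring
  rw [hV', hPI, Finset.sum_add_distrib, Finset.sum_sub_distrib, ← Finset.mul_sum, ← Finset.mul_sum]
  linear_combination (2 * Real.pi) * hG

end Pool.Agent.Q206.HT
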