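import Pool.Agent.Q99.HT.Stm5
import Pool.Agent.Q239.KN.VOL
import Pool.Agent.Q239.KN.BW

/-!
# Job HT-VF (project of helper99), part 1: `LC` in terms of volumes on the whole strip
-/

set_option autoImplicit false

namespace Pool.Agent.Q206.HT

open Filter Topology MeasureTheory
open Pool.Agent.Q99.KN (LC bb St S_LC tet lbf S_BW)
open Pool.Agent.W719.BS (LL)

theorem lbf_neg (t : ℝ) : lbf (-t) = -lbf t := by
  unfold lbf
  have h := intervalIntegral.integral_comp_neg (a := 0) (b := t)
    (fun s : ℝ => Real.log |2 * Real.sin s|)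
  simp only [Real.sin_neg, mul_neg, abs_neg, neg_zero] at h
  rw [intervalIntegral.integral_symm, ← h]

theorem lbf_zero : lbf 0 = 0 := by simp [lbf]

theorem lbf_pi : lbf Real.pi = 0 := by
  have h1 := Pool.Agent.Q239.KN.lbf_pi_half
  unfold lbf at h1 ⊢
  have hi := Pool.Agent.Q239.KN.bw_ii
  rw [← intervalIntegral.integral_add_adjacent_intervals (hi 0 (Real.pi / 2))
    (hi (Real.pi / 2) Real.pi)]
  have h2 : ∫ t in (Real.pi / 2)..Real.pi, Real.log |2 * Real.sin t| =
      ∫ t in (0:ℝ)..(Real.pi / 2), Real.log |2 * Real.sin t| := by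
    have h := intervalIntegral.integral_comp_sub_left (a := 0) (b := Real.pi / 2)
      (fun s : ℝ => Real.log |2 * Real.sin s|) Real.pi
    simp only [Real.sin_pi_sub, sub_zero] at h
    rw [h]
    congr 1
    ring
  rw [h2]
  linarith

theorem arg_neg_of {z : ℂ} (h : z.im ≠ 0) : (z⁻¹).arg = -z.arg := by
  rw [Complex.arg_inv, if_neg]
  intro h1
  rw [Complex.arg_eq_pi_iff] at h1
  exact h h1.2

theorem tet_inv {z : ℂ} (h : z.im ≠ 0) : tet (1 / z) = -tet z := by
  have hz : z ≠ 0 := by
    rintro rfl; simp at h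
  have h1 : (1 : ℂ) - z ≠ 0 := by
    intro h2
    have := congrArg Complex.im h2
    simp at this
    exact h this
  have hi1 : ((1 - z)⁻¹ : ℂ).im ≠ 0 := by
    rw [Complex.inv_im]
    simp only [Complex.sub_im, Complex.one_im, zero_sub, neg_neg]
    exact div_ne_zero h (by rw [ne_eq, Complex.normSq_eq_zero]; exact h1)
  have e2 : (z - 1) / z = 1 - z⁻¹ := by field_simp
  have hi2 : ((z - 1) / z).im ≠ 0 := by
    rw [e2]
    simp only [Complex.sub_im, Complex.one_im, Complex.inv_im, zero_sub]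
    rw [neg_div, neg_neg]
    exact div_ne_zero h (by rw [ne_eq, Complex.normSq_eq_zero]; exact hz)
  unfold tet
  have a1 : (1 / z).arg = -z.arg := by rw [one_div, arg_neg_of h]
  have a2 : (1 / (1 - 1 / z)).arg = -((z - 1) / z).arg := by
    rw [← arg_neg_of hi2]
    congr 1
    rw [e2, one_div, one_div]
  have a3 : ((1 / z - 1) / (1 / z)).arg = -(1 / (1 - z)).arg := by
    have h3 := arg_neg_of hi1
    rw [inv_inv] at h3
    rw [one_div (1 - z), ← h3]
    congr 1
    field_simp
  rw [a1, a2, a3, lbf_neg, lbf_neg, lbf_neg]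
  ring

theorem tet_real_neg {t : ℝ} (h : t < 0) : tet (t : ℂ) = 0 := by
  unfold tet
  have a1 : ((t : ℝ) : ℂ).arg = Real.pi := Complex.arg_ofReal_of_neg h
  have a2 : (1 / (1 - (t : ℂ))).arg = 0 := by
    have : (1 / (1 - (t : ℂ))) = ((1 / (1 - t) : ℝ) : ℂ) := by push_cast; ring
    rw [this]
    exact Complex.arg_ofReal_of_nonneg (by apply div_nonneg zero_le_one; linarith)
  have a3 : (((t : ℂ) - 1) / t).arg = 0 := by
    have : (((t : ℂ) - 1) / t) = (((t - 1) / t : ℝ) : ℂ) := by push_cast; ring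
    rw [this]
    exact Complex.arg_ofReal_of_nonneg (div_nonneg_of_nonpos (by linarith) h.le)
  rw [a1, a2, a3, lbf_pi, lbf_zero]
  ring

theorem tet_one : tet 1 = 0 := by
  unfold tet
  simp [lbf_zero]

/-- the exponential -/
noncomputable def ee (x : ℂ) : ℂ := Complex.exp (2 * Real.pi * Complex.I * x)

theorem ee_one_sub (x : ℂ) : ee (1 - x) = 1 / ee x := by
  unfold ee
  have : 2 * Real.pi * Complex.I * (1 - x) = 2 * Real.pi * Complex.I - 2 * Real.pi * Complex.I * x := by
    ring
  rw [this, Complex.exp_sub, Complex.exp_two_pi_mul_I]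

theorem ee_im (x : ℂ) : (ee x).im = Real.exp (-(2 * Real.pi * x.im)) * Real.sin (2 * Real.pi * x.re) := by
  unfold ee
  rw [Complex.exp_im]
  simp

theorem ee_re (x : ℂ) : (ee x).re = Real.exp (-(2 * Real.pi * x.im)) * Real.cos (2 * Real.pi * x.re) := by
  unfold ee
  rw [Complex.exp_re]
  simp

theorem ee_half {x : ℂ} (h : x.re = 1 / 2) : ee x = ((-Real.exp (-(2 * Real.pi * x.im)) : ℝ) : ℂ) := by
  apply Complex.ext
  · rw [ee_re, h, Complex.ofReal_re]
    have : 2 * Real.pi * (1 / 2) = Real.pi := by ring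
    rw [this, Real.cos_pi, mul_neg_one]
  · rw [ee_im, h]
    have : 2 * Real.pi * (1 / 2) = Real.pi := by ring
    rw [this, Real.sin_pi, mul_zero, Complex.ofReal_im]

theorem bb_half {y : ℝ} : bb (1 / 2 + y * Complex.I) = ((Real.log (2 * Real.cosh (Real.pi * y)) : ℝ) : ℂ) := by
  unfold bb
  have h1 : (Real.pi : ℂ) * (1 / 2 + y * Complex.I) = Real.pi / 2 - -((Real.pi * y : ℝ) : ℂ) * Complex.I := by
    push_cast; ring
  rw [h1, Complex.sin_pi_div_two_sub, neg_mul, Complex.cos_neg, Complex.cos_mul_I]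
  rw [Complex.ofReal_log (by positivity)]
  push_cast
  rfl

theorem LC_half {x : ℂ} (h : x.re = 1 / 2) : (LC x).re = 0 := by
  have hx : x = 1 / 2 + x.im * Complex.I := by
    apply Complex.ext
    · simp [h]
    · simp
  have h1 : LC x = Complex.I * ((∫ t in (0:ℝ)..1, x.im * Real.log (2 * Real.cosh (Real.pi * (t * x.im))) : ℝ) : ℂ) := by
    unfold LC
    rw [← intervalIntegral.integral_ofReal, ← intervalIntegral.integral_const_mul]
    apply intervalIntegral.integral_congr
    intro t _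
    have e1 : x - 1 / 2 = x.im * Complex.I := by rw [hx]; simp
    have e2 : (1 / 2 + t * (x - 1 / 2) : ℂ) = 1 / 2 + ((t * x.im : ℝ) : ℂ) * Complex.I := by
      rw [e1]; push_cast; ring
    show (x - 1 / 2) * bb (1 / 2 + t * (x - 1 / 2)) = _
    rw [e2, bb_half, e1]
    push_cast
    ring
  rw [h1]
  simp

theorem LC_zero : LC 0 = 0 := by
  have h1 : LC 0 = ((∫ t in (0:ℝ)..1, (-1 / 2) * Real.log |2 * Real.sin (Real.pi / 2 - Real.pi / 2 * t)| : ℝ) : ℂ) := by
    unfold LC
    rw [← intervalIntegral.integral_ofReal]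
    apply intervalIntegral.integral_congr
    intro t ht
    rw [Set.uIcc_of_le zero_le_one] at ht
    have hs : 0 ≤ Real.sin (Real.pi / 2 - Real.pi / 2 * t) := by
      apply Real.sin_nonneg_of_nonneg_of_le_pi
      · nlinarith [Real.pi_pos, ht.1, ht.2]
      · nlinarith [Real.pi_pos, ht.1, ht.2]
    show ((0 : ℂ) - 1 / 2) * bb (1 / 2 + t * (0 - 1 / 2)) = _
    unfold bb
    have e1 : (Real.pi : ℂ) * (1 / 2 + t * (0 - 1 / 2)) = ((Real.pi / 2 - Real.pi / 2 * t : ℝ) : ℂ) := by
      push_cast; ring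
    have e2 : |2 * Real.sin (Real.pi / 2 - Real.pi / 2 * t)| = 2 * Real.sin (Real.pi / 2 - Real.pi / 2 * t) :=
      abs_of_nonneg (by positivity)
    show _ = (((-1 / 2) * Real.log |2 * Real.sin (Real.pi / 2 - Real.pi / 2 * t)| : ℝ) : ℂ)
    rw [e1, e2, Complex.ofReal_mul, Complex.ofReal_log (by positivity)]
    push_cast
    ring
  rw [h1]
  have h2 := Pool.Agent.Q239.KN.lbf_pi_half
  unfold lbf at h2
  have h3 := intervalIntegral.integral_comp_sub_mul (a := 0) (b := 1)
    (fun s : ℝ => Real.log |2 * Real.sin s|) (c := Real.pi / 2) (by positivity) (Real.pi / 2)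
  rw [intervalIntegral.integral_const_mul, h3]
  have e1 : Real.pi / 2 - Real.pi / 2 * 1 = 0 := by ring
  have e2 : Real.pi / 2 - Real.pi / 2 * 0 = Real.pi / 2 := by ring
  rw [e1, e2]
  have h4 : ∫ t in (0:ℝ)..(Real.pi / 2), Real.log |2 * Real.sin t| = 0 := by linarith
  rw [h4]
  simp

/-- the strip with the point `0` -/
def S0 (x : ℂ) : Prop := x ∈ St ∨ x = 0

/-- `S_BW` on the whole strip and at `0` -/
theorem bw_all (hL : S_LC) (hB : S_BW) {x : ℂ} (hx : S0 x) : 2 * Real.pi * (LC x).re =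
    -tet (ee x) - 2 * Real.pi * (x.im * (bb x).im) := by
  rcases hx with ⟨h0, h1⟩ | rfl
  · rcases lt_trichotomy x.re (1 / 2) with h | h | h
    · exact hB hL x h0 h
    · rw [LC_half h, ee_half h, tet_real_neg (by
        have := Real.exp_pos (-(2 * Real.pi * x.im))
        linarith)]
      have hx : x = 1 / 2 + x.im * Complex.I := by
        apply Complex.ext
        · simp [h]
        · simp
      have : (bb x).im = 0 := by
        rw [hx, bb_half]
        exact Complex.ofReal_im _
      rw [this]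
      ring
    · have h2 := hB hL (1 - x) (by simp; linarith) (by simp; linarith)
      have h3 := hL.2.1 x ⟨h0, h1⟩
      have h4 := hL.2.2.2.2 x ⟨h0, h1⟩
      rw [h3, h4] at h2
      have h5 : Complex.exp (2 * Real.pi * Complex.I * (1 - x)) = 1 / ee x := ee_one_sub x
      rw [h5] at h2
      have h6 : (ee x).im ≠ 0 := by
        rw [ee_im]
        apply mul_ne_zero (Real.exp_pos _).ne'
        have : Real.sin (2 * Real.pi * x.re) = -Real.sin (2 * Real.pi * x.re - Real.pi) := by
          rw [Real.sin_sub_pi, neg_neg]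
        rw [this]
        apply neg_ne_zero.2
        apply ne_of_gt
        apply Real.sin_pos_of_pos_of_lt_pi
        · nlinarith [Real.pi_pos]
        · nlinarith [Real.pi_pos]
      rw [tet_inv h6] at h2
      simp only [Complex.neg_re, Complex.sub_im, Complex.one_im] at h2
      linarith
  · rw [LC_zero]
    have : ee 0 = 1 := by simp [ee]
    rw [this, tet_one]
    simp

theorem tet_sub (hL : S_LC) (hB : S_BW) {x : ℂ} (hx : x ∈ St) : tet (ee x) + tet (ee (1 - x)) = 0 := by
  have h1 := bw_all hL hB (x := x) (Or.inl hx)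
  have hx' : 1 - x ∈ St := by
    obtain ⟨h0, h1⟩ := hx
    exact ⟨by simp; linarith, by simp; linarith⟩
  have h2 := bw_all hL hB (x := 1 - x) (Or.inl hx')
  rw [hL.2.1 x hx, hL.2.2.2.2 x hx] at h2
  simp only [Complex.neg_re, Complex.sub_im, Complex.one_im] at h2
  linarith

end Pool.Agent.Q206.HT
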